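import Pool.Agent.Y674.HY.Stm

/-!
Project HY: the crystallographic lemma (helper908).
-/

set_option autoImplicit false

namespace Pool.Agent.Y908.HY

open Pool.Agent.Y674.HY

section

variable {G : Type} [Group G] {ι : Type} [Fintype ι] (π : G →* Equiv.Perm ι) (N : ι → ℤ)

/-- the translated vectors -/
def vv (g : G) : ι → ℚ := fun i => (N (π g i) : ℚ)

/-- the translations -/
def TT (h : G) : (ι → ℚ) →ₗ[ℚ] (ι → ℚ) := LinearMap.funLeft ℚ ℚ (π h)

/-- the inner product -/
def ip (u v : ι → ℚ) : ℚ := ∑ i, u i * v i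

theorem TT_vv (h g : G) : TT π h (vv π N g) = vv π N (g * h) := by
  funext i
  simp [TT, vv, LinearMap.funLeft_apply]

theorem ip_TT (h : G) (u v : ι → ℚ) : ip (TT π h u) (TT π h v) = ip u v := by
  unfold ip TT
  simp only [LinearMap.funLeft_apply]
  exact Equiv.sum_comp (π h) (fun i => u i * v i)

theorem ip_comm (u v : ι → ℚ) : ip u v = ip v u := by
  unfold ip
  exact Finset.sum_congr rfl fun i _ => mul_comm _ _

theorem ip_add_left (u v w : ι → ℚ) : ip (u + v) w = ip u w + ip v w := by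
  unfold ip
  rw [← Finset.sum_add_distrib]
  exact Finset.sum_congr rfl fun i _ => by rw [Pi.add_apply]; ring

theorem ip_smul_left (c : ℚ) (u w : ι → ℚ) : ip (c • u) w = c * ip u w := by
  unfold ip
  rw [Finset.mul_sum]
  exact Finset.sum_congr rfl fun i _ => by rw [Pi.smul_apply, smul_eq_mul]; ring

theorem ip_add_right (u v w : ι → ℚ) : ip u (v + w) = ip u v + ip u w := by
  rw [ip_comm, ip_add_left, ip_comm v, ip_comm w]

theorem ip_smul_right (c : ℚ) (u w : ι → ℚ) : ip u (c • w) = c * ip u w := by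
  rw [ip_comm, ip_smul_left, ip_comm]

theorem ip_pos {v : ι → ℚ} (hv : v ≠ 0) : 0 < ip v v := by
  obtain ⟨i, hi⟩ := Function.ne_iff.1 hv
  unfold ip
  refine Finset.sum_pos' (fun j _ => mul_self_nonneg _) ⟨i, Finset.mem_univ _, ?_⟩
  exact mul_self_pos.2 hi

variable {π N}

theorem ne_neg [Nonempty ι] {d : ℕ} (hN : Pat d N) (g h : G) : vv π N g ≠ -vv π N h := by
  intro heq
  obtain ⟨i⟩ := (inferInstance : Nonempty ι)
  have h1 : ((N (π g i) : ℤ) : ℚ) = ((-N (π h i) : ℤ) : ℚ) := by
    have := congrFun heq i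
    simpa [vv] using this
  have h2 : N (π g i) = -N (π h i) := by exact_mod_cast h1
  have h3 := hN.2.2 (π g i) (π h i)
  obtain ⟨k, hk⟩ := hN.2.1 (π h i)
  unfold Int.ModEq at h3
  omega

theorem ip_vv (g h k : G) : ip (vv π N (g * k)) (vv π N (h * k)) = ip (vv π N g) (vv π N h) := by
  rw [← TT_vv, ← TT_vv, ip_TT]

theorem ip_vv_self (g : G) : ip (vv π N g) (vv π N g) = ip (vv π N 1) (vv π N 1) := by
  have := ip_vv (π := π) (N := N) 1 1 g
  rwa [one_mul] at this

theorem vv_ne_zero [Nonempty ι] {d : ℕ} (hN : Pat d N) (g : G) : vv π N g ≠ 0 := by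
  intro h0
  apply ne_neg hN g g
  rw [h0, neg_zero]

theorem smul_cases [Nonempty ι] {d : ℕ} (hN : Pat d N) {g h : G} {c : ℚ}
    (hc : vv π N g = c • vv π N h) : vv π N g = vv π N h := by
  have h1 := ip_vv_self (π := π) (N := N) g
  have h2 := ip_vv_self (π := π) (N := N) h
  have h3 : 0 < ip (vv π N 1) (vv π N 1) := ip_pos (vv_ne_zero hN 1)
  rw [hc, ip_smul_left, ip_smul_right, h2] at h1
  have h4 : (c - 1) * (c + 1) = 0 := by
    have : (c * (c * ip (vv π N 1) (vv π N 1)) - ip (vv π N 1) (vv π N 1)) = 0 := by linarith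
    have h5 : ((c - 1) * (c + 1)) * ip (vv π N 1) (vv π N 1) = 0 := by linear_combination this
    exact (mul_eq_zero.1 h5).resolve_right h3.ne'
  rcases mul_eq_zero.1 h4 with h5 | h5
  · rw [hc, show c = 1 by linarith, one_smul]
  · exfalso
    apply ne_neg hN g h
    rw [hc, show c = -1 by linarith, neg_one_smul]

theorem indep [Nonempty ι] {d : ℕ} (hN : Pat d N) {g : G} (hg : vv π N g ≠ vv π N 1) :
    LinearIndependent ℚ ![vv π N 1, vv π N g] := by
  rw [LinearIndependent.pair_iff]
  intro s t hst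
  have ht : t = 0 := by
    by_contra ht
    apply hg
    apply smul_cases hN (c := -(s / t))
    have h1 : t • vv π N g = -(s • vv π N 1) := by
      rw [eq_neg_iff_add_eq_zero, add_comm]; exact hst
    calc vv π N g = t⁻¹ • (t • vv π N g) := by rw [smul_smul, inv_mul_cancel₀ ht, one_smul]
      _ = -(s / t) • vv π N 1 := by
        rw [h1, smul_neg, smul_smul, neg_smul]
        congr 2
        field_simp
  refine ⟨?_, ht⟩
  rw [ht, zero_smul, add_zero] at hst
  exact (smul_eq_zero.1 hst).resolve_right (vv_ne_zero hN 1)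

theorem span_two [Nonempty ι] [Finite G] {d : ℕ} (hN : Pat d N)
    (hr : Module.finrank ℚ (Submodule.span ℚ (Set.range (vv π N))) ≤ 2) {g : G}
    (hg : vv π N g ≠ vv π N 1) (h : G) : ∃ a b : ℚ, vv π N h = a • vv π N 1 + b • vv π N g := by
  have hi := indep hN hg
  have h1 : Submodule.span ℚ {vv π N 1, vv π N g} ≤ Submodule.span ℚ (Set.range (vv π N)) := by
    apply Submodule.span_mono
    rintro x (rfl | rfl)
    · exact ⟨1, rfl⟩
    · exact ⟨g, rfl⟩
  have h2 : Module.finrank ℚ (Submodule.span ℚ {vv π N 1, vv π N g}) = 2 := by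
    have := finrank_span_eq_card hi
    rw [Matrix.range_cons_cons_empty] at this
    simpa using this
  have h3 : Submodule.span ℚ {vv π N 1, vv π N g} = Submodule.span ℚ (Set.range (vv π N)) :=
    Submodule.eq_of_le_of_finrank_le h1 (by rw [h2]; exact hr)
  have h4 : vv π N h ∈ Submodule.span ℚ {vv π N 1, vv π N g} := by
    rw [h3]
    exact Submodule.subset_span ⟨h, rfl⟩
  obtain ⟨a, b, hab⟩ := Submodule.mem_span_pair.1 h4
  exact ⟨a, b, hab.symm⟩

/-- strict Cauchy-Schwarz -/
theorem cs [Nonempty ι] {d : ℕ} (hN : Pat d N) {g : G} (hg : vv π N g ≠ vv π N 1) :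
    |ip (vv π N 1) (vv π N g)| < ip (vv π N 1) (vv π N 1) := by
  have h1 := ip_vv_self (π := π) (N := N) g
  have h2 : 0 < ip (vv π N 1 + (-1 : ℚ) • vv π N g) (vv π N 1 + (-1 : ℚ) • vv π N g) := by
    apply ip_pos
    intro h0
    apply hg
    rw [neg_one_smul, ← sub_eq_add_neg, sub_eq_zero] at h0
    exact h0.symm
  have h3 : 0 < ip (vv π N 1 + vv π N g) (vv π N 1 + vv π N g) := by
    apply ip_pos
    intro h0
    apply ne_neg hN 1 g
    exact eq_neg_of_add_eq_zero_left h0
  simp only [ip_add_left, ip_add_right, ip_smul_left, ip_smul_right] at h2 h3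
  rw [ip_comm (vv π N g) (vv π N 1), h1] at h2 h3
  rw [abs_lt]
  constructor <;> linarith

/-- the integer trace -/
theorem no_rot [Nonempty ι] {d : ℕ} (hN : Pat d N) {g : G} {t : ℚ} (ht : |t| < 2)
    (h : vv π N (g * g) = -vv π N 1 + t • vv π N g) : False := by
  obtain ⟨M, hM, hg1⟩ := Finset.extract_gcd N (Finset.univ_nonempty (α := ι))
  set e := Finset.univ.gcd N with he
  have he0 : e ≠ 0 := by
    intro h0
    obtain ⟨i⟩ := (inferInstance : Nonempty ι)
    have h1 := hM i (Finset.mem_univ _)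
    rw [h0, zero_mul] at h1
    obtain ⟨k, hk⟩ := hN.2.1 i
    omega
  have heq : ∀ i, t * (N (π g i) : ℚ) = (N (π (g * g) i) : ℚ) + (N i : ℚ) := by
    intro i
    have := congrFun h i
    simp only [vv, Pi.add_apply, Pi.neg_apply, Pi.smul_apply, smul_eq_mul, map_one,
      Equiv.Perm.coe_one, id] at this
    linarith
  have heM : ∀ i, t * (M (π g i) : ℚ) = (M (π (g * g) i) : ℚ) + (M i : ℚ) := by
    intro i
    have h1 := heq i
    rw [hM _ (Finset.mem_univ _), hM (π (g * g) i) (Finset.mem_univ _),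
      hM i (Finset.mem_univ _)] at h1
    push_cast at h1
    have he' : (e : ℚ) ≠ 0 := by exact_mod_cast he0
    apply mul_left_cancel₀ he'
    linarith
  have hden : (t.den : ℤ) ∣ 1 := by
    rw [← hg1]
    apply Finset.dvd_gcd
    intro j _
    obtain ⟨i, rfl⟩ := (π g).surjective j
    have h1 := heM i
    have h2 : (t.num : ℚ) * M (π g i) = t.den * ((M (π (g * g) i) : ℚ) + (M i : ℚ)) := by
      rw [← h1, ← mul_assoc]
      congr 1
      exact (Rat.den_mul_eq_num t).symm
    have h3 : t.num * M (π g i) = t.den * (M (π (g * g) i) + M i) := by exact_mod_cast h2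
    have h4 : (t.den : ℤ) ∣ t.num * M (π g i) := ⟨_, h3⟩
    have h5 : IsCoprime (t.den : ℤ) t.num := by
      rw [Int.isCoprime_iff_gcd_eq_one]
      have := t.reduced
      rw [Int.gcd_comm]
      simpa [Int.gcd, Nat.Coprime] using this
    exact h5.dvd_of_dvd_mul_left h4
  have hden1 : t.den = 1 := by
    have h1 : (t.den : ℤ) = 1 := Int.eq_one_of_dvd_one (by positivity) hden
    exact_mod_cast h1
  obtain ⟨a, ha⟩ : ∃ a : ℤ, t = a := ⟨t.num, by
    have := Rat.num_div_den t
    rw [hden1] at this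
    simpa using this.symm⟩
  obtain ⟨i⟩ := (inferInstance : Nonempty ι)
  have h1 := heq i
  rw [ha] at h1 ht
  have h2 : a * N (π g i) = N (π (g * g) i) + N i := by exact_mod_cast h1
  have h3 : |a| < 2 := by exact_mod_cast ht
  have m1 := hN.2.2 (π g i) (π (g * g) i)
  have m2 := hN.2.2 (π g i) i
  obtain ⟨k, hk⟩ := hN.2.1 (π g i)
  unfold Int.ModEq at m1 m2
  rw [abs_lt] at h3
  have h4 : a = -1 ∨ a = 0 ∨ a = 1 := by omega
  rcases h4 with h4 | h4 | h4 <;> rw [h4] at h2 <;> omega

theorem sq_eq [Nonempty ι] [Finite G] {d : ℕ} (hN : Pat d N)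
    (hr : Module.finrank ℚ (Submodule.span ℚ (Set.range (vv π N))) ≤ 2) {g : G}
    (hg : vv π N g ≠ vv π N 1) : vv π N (g * g) = vv π N 1 := by
  obtain ⟨a, b, hab⟩ := span_two hN hr hg (g * g)
  have hcs := cs hN hg
  have hn : 0 < ip (vv π N 1) (vv π N 1) := ip_pos (vv_ne_zero hN 1)
  have h1 := ip_vv_self (π := π) (N := N) g
  have h2 := ip_vv_self (π := π) (N := N) (g * g)
  have h3 := ip_vv (π := π) (N := N) 1 g g
  rw [one_mul] at h3
  rw [hab] at h2 h3
  simp only [ip_add_left, ip_add_right, ip_smul_left, ip_smul_right] at h2 h3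
  rw [ip_comm (vv π N g) (vv π N 1), h1] at h2 h3
  set n := ip (vv π N 1) (vv π N 1) with hndef
  set s := ip (vv π N 1) (vv π N g) with hsdef
  -- h3 : a * s + b * n = s ; h2 : a (a n + b s) + b (a s + b n) = n
  have h5 : (1 - a) * (1 + a) * ((n - s) * (n + s)) = 0 := by
    linear_combination (-n) * h2 + (b * n + s * (1 - a) + 2 * a * s) * h3
  rw [abs_lt] at hcs
  have h6 : (n - s) * (n + s) ≠ 0 := by
    apply mul_ne_zero <;> linarith
  have h7 := (mul_eq_zero.1 h5).resolve_right h6
  rcases mul_eq_zero.1 h7 with h8 | h8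
  · have ha : a = 1 := by linarith
    rw [ha] at h3
    have hb : b = 0 := by
      have : b * n = 0 := by linarith
      exact (mul_eq_zero.1 this).resolve_right hn.ne'
    rw [hab, ha, hb, one_smul, zero_smul, add_zero]
  · exfalso
    have ha : a = -1 := by linarith
    rw [ha, neg_one_smul] at hab
    refine no_rot hN ?_ hab
    rw [ha] at h3
    have hb : b * n = 2 * s := by linarith
    have h9 : |b| * n < 2 * n := by
      calc |b| * n = |b * n| := by rw [abs_mul, abs_of_pos hn]
        _ = 2 * |s| := by rw [hb, abs_mul, abs_two]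
        _ < 2 * n := by
          have : |s| < n := by rw [abs_lt]; exact hcs
          linarith
    exact lt_of_mul_lt_mul_right h9 hn.le

theorem two_patterns [Nonempty ι] [Finite G] {d : ℕ} (hN : Pat d N)
    (hr : Module.finrank ℚ (Submodule.span ℚ (Set.range (vv π N))) ≤ 2) {g h : G}
    (hg : vv π N g ≠ vv π N 1) (hh : vv π N h ≠ vv π N 1) : vv π N g = vv π N h := by
  by_contra hgh
  have g2 := sq_eq hN hr hg
  have h2 := sq_eq hN hr hh
  -- the involution property on the span
  have inv : ∀ x : G, vv π N x ≠ vv π N 1 → ∀ y : G, vv π N (y * (x * x)) = vv π N y := by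
    intro x hx y
    have x2 := sq_eq hN hr hx
    obtain ⟨a, b, hab⟩ := span_two hN hr hx y
    have e1 : TT π (x * x) (vv π N 1) = vv π N 1 := by rw [TT_vv, one_mul, x2]
    have e2 : TT π (x * x) (vv π N x) = vv π N x := by
      rw [TT_vv]
      have : x * (x * x) = (x * x) * x := by group
      rw [this, ← TT_vv, x2, TT_vv, one_mul]
    rw [← TT_vv, hab, map_add, map_smul, map_smul, e1, e2]
  have hk : vv π N (g * h⁻¹) ≠ vv π N 1 := by
    intro hc
    apply hgh
    have := congrArg (TT π h) hc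
    rw [TT_vv, TT_vv, one_mul, inv_mul_cancel_right] at this
    exact this
  have k2 := sq_eq hN hr hk
  -- T_{h⁻¹} = T_h
  have hinv : ∀ y : G, vv π N (y * h⁻¹) = vv π N (y * h) := by
    intro y
    have := inv h hh (y * h⁻¹)
    rw [← this]
    congr 1
    group
  have ginv : ∀ y : G, vv π N (y * g⁻¹) = vv π N (y * g) := by
    intro y
    have := inv g hg (y * g⁻¹)
    rw [← this]
    congr 1
    group
  -- g h⁻¹ g h⁻¹ fixes N, hence v (g h⁻¹) = v (h g⁻¹)
  have e3 : vv π N (g * h⁻¹) = vv π N (h * g⁻¹) := by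
    have := congrArg (TT π (h * g⁻¹)) k2
    rw [TT_vv, TT_vv, one_mul] at this
    rw [← this]
    congr 1
    group
  rw [hinv, ginv] at e3
  -- e3 : v (g h) = v (h g)
  obtain ⟨a, b, hab⟩ := span_two hN hr hg h
  have f1 : vv π N (h * g) = a • vv π N g + b • vv π N 1 := by
    rw [← TT_vv, hab, map_add, map_smul, map_smul, TT_vv, TT_vv, one_mul, g2]
  have hn : 0 < ip (vv π N 1) (vv π N 1) := ip_pos (vv_ne_zero hN 1)
  have p1 : TT π h (vv π N 1 + vv π N g) = (a + b) • (vv π N 1 + vv π N g) := by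
    rw [map_add, TT_vv, TT_vv, one_mul, e3, f1, hab]
    module
  have p2 : TT π h (vv π N 1 + (-1 : ℚ) • vv π N g) =
      (a - b) • (vv π N 1 + (-1 : ℚ) • vv π N g) := by
    rw [map_add, map_smul, TT_vv, TT_vv, one_mul, e3, f1, hab]
    module
  have q1 : 0 < ip (vv π N 1 + vv π N g) (vv π N 1 + vv π N g) := by
    apply ip_pos
    intro h0
    exact ne_neg hN 1 g (eq_neg_of_add_eq_zero_left h0)
  have q2 : 0 < ip (vv π N 1 + (-1 : ℚ) • vv π N g) (vv π N 1 + (-1 : ℚ) • vv π N g) := by
    apply ip_pos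
    intro h0
    apply hg
    rw [neg_one_smul, ← sub_eq_add_neg, sub_eq_zero] at h0
    exact h0.symm
  have r1 : (a + b) ^ 2 = 1 := by
    have := ip_TT π h (vv π N 1 + vv π N g) (vv π N 1 + vv π N g)
    rw [p1, ip_smul_left, ip_smul_right] at this
    have h3 : ((a + b) ^ 2 - 1) * ip (vv π N 1 + vv π N g) (vv π N 1 + vv π N g) = 0 := by
      linear_combination this
    have := (mul_eq_zero.1 h3).resolve_right q1.ne'
    linarith
  have r2 : (a - b) ^ 2 = 1 := by
    have := ip_TT π h (vv π N 1 + (-1 : ℚ) • vv π N g) (vv π N 1 + (-1 : ℚ) • vv π N g)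
    rw [p2, ip_smul_left, ip_smul_right] at this
    have h3 : ((a - b) ^ 2 - 1) * ip (vv π N 1 + (-1 : ℚ) • vv π N g)
        (vv π N 1 + (-1 : ℚ) • vv π N g) = 0 := by
      linear_combination this
    have := (mul_eq_zero.1 h3).resolve_right q2.ne'
    linarith
  have r3 : a * b = 0 := by nlinarith
  rcases mul_eq_zero.1 r3 with h0 | h0
  · rw [h0, zero_smul, zero_add] at hab
    exact hgh (smul_cases hN hab).symm
  · rw [h0, zero_smul, add_zero] at hab
    exact hh (smul_cases hN hab)

end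

theorem cry : CRY := by
  intro G _ _ ι _ π d N hN hr
  rcases isEmpty_or_nonempty ι with hι | hι
  · refine ⟨⊤, by simp, fun g _ i => (IsEmpty.false i).elim⟩
  have hr' : Module.finrank ℚ (Submodule.span ℚ (Set.range (vv π N))) ≤ 2 := hr
  let S : Subgroup G :=
    { carrier := {g | vv π N g = vv π N 1}
      mul_mem' := by
        intro a b ha hb
        simp only [Set.mem_ofPred_eq] at ha hb ⊢
        rw [← TT_vv, ha, TT_vv, one_mul, hb]
      one_mem' := rfl
      inv_mem' := by
        intro a ha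
        simp only [Set.mem_ofPred_eq] at ha ⊢
        have := congrArg (TT π a⁻¹) ha
        rw [TT_vv, TT_vv, one_mul, mul_inv_cancel] at this
        exact this.symm }
  have hS : ∀ g, g ∈ S ↔ vv π N g = vv π N 1 := fun g => Iff.rfl
  refine ⟨S, ?_, ?_⟩
  · by_cases htop : ∀ g, g ∈ S
    · have : S = ⊤ := by
        rw [Subgroup.eq_top_iff']; exact htop
      rw [this]; simp
    · push Not at htop
      obtain ⟨a, ha⟩ := htop
      have : S.index = 2 := by
        rw [Subgroup.index_eq_two_iff]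
        refine ⟨a, fun b => ?_⟩
        by_cases hb : b ∈ S
        · right
          refine ⟨hb, fun h => ha ?_⟩
          exact (S.mul_mem_cancel_left hb).1 h
        · left
          refine ⟨?_, hb⟩
          have ha' : a⁻¹ ∉ S := fun h => ha (by simpa using S.inv_mem h)
          have h1 := two_patterns hN hr' (fun h => hb ((hS b).2 h)) (fun h => ha' ((hS _).2 h))
          rw [hS, ← TT_vv, h1, TT_vv, inv_mul_cancel]
      rw [this]
  · intro g hg i
    have h1 := congrFun ((hS g).1 hg) i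
    simp only [vv, map_one, Equiv.Perm.coe_one, id] at h1
    exact_mod_cast h1

end Pool.Agent.Y908.HY
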