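import Pool.Agent.Y674.HY.Stm

/-!
Project HY: traces of nearly proportional integers (helper908).
-/

set_option autoImplicit false

namespace Pool.Agent.Y908.HY

open Polynomial NumberField Pool.Agent.Y674.HY

/-- the trace as a sum over the complex embeddings -/
theorem tr_eq {F : Type} [Field F] [NumberField F] (a : F) :
    ((Algebra.trace ℚ F a : ℚ) : ℂ) = ∑ σ : F →+* ℂ, σ a := by
  have h1 := trace_eq_sum_embeddings (K := ℚ) (L := F) ℂ (x := a)
  rw [eq_ratCast] at h1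
  rw [h1]
  exact Fintype.sum_equiv (RingHom.equivRatAlgHom F ℂ).symm _ _ (fun σ => rfl)

theorem tr_int {F : Type} [Field F] [NumberField F] (w : 𝓞 F) :
    ∃ Z : ℤ, (Z : ℂ) = ∑ σ : F →+* ℂ, σ (w : F) := by
  have h1 : IsIntegral ℤ (Algebra.trace ℚ F (w : F)) :=
    Algebra.isIntegral_trace w.isIntegral_coe
  obtain ⟨Z, hZ⟩ := IsIntegrallyClosed.isIntegral_iff.1 h1
  refine ⟨Z, ?_⟩
  rw [← tr_eq, ← hZ]
  simp

theorem card_emb (F : Type) [Field F] [NumberField F] :
    Fintype.card (F →+* ℂ) = Module.finrank ℚ F := NumberField.Embeddings.card F ℂ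

theorem trc : TRC := by
  intro F _ _ h4 d N hN w u η hη
  obtain ⟨Z, hZ⟩ := tr_int w
  obtain ⟨hb, hodd, hmod⟩ := hN
  have hcard := card_emb F
  refine ⟨Z, ∑ σ, N σ, ?_, ?_, ?_⟩
  · -- nonzero
    intro h0
    have hne : Nonempty (F →+* ℂ) := inferInstance
    obtain ⟨σ0⟩ := hne
    have h1 : (∑ σ : F →+* ℂ, N σ) ≡ ∑ _σ : F →+* ℂ, N σ0 [ZMOD 4] := by
      rw [Int.modEq_iff_dvd, ← Finset.sum_sub_distrib]
      exact Finset.dvd_sum fun σ _ => (Int.modEq_iff_dvd.1 (hmod σ σ0))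
    rw [h0, Finset.sum_const, Finset.card_univ, hcard, nsmul_eq_mul] at h1
    have h2 : (4 : ℤ) ∣ (Module.finrank ℚ F : ℤ) * N σ0 := by
      have := (Int.modEq_iff_dvd.1 h1)
      simpa using this
    have h3 : IsCoprime (4 : ℤ) (N σ0) := by
      have h5 : IsCoprime (2 : ℤ) (N σ0) := (Int.isCoprime_iff_gcd_eq_one).2 (by
        have := hodd σ0
        rw [Int.gcd_comm]
        exact Int.isCoprime_iff_gcd_eq_one.1 (Int.isCoprime_two_right.2 this) )
      have : (4 : ℤ) = 2 ^ 2 := by norm_num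
      rw [this]
      exact h5.pow_left
    have h4' : (4 : ℤ) ∣ (Module.finrank ℚ F : ℤ) := h3.dvd_of_dvd_mul_right h2
    exact h4 (by exact_mod_cast h4')
  · calc |∑ σ, N σ| ≤ ∑ σ, |N σ| := Finset.abs_sum_le_sum_abs _ _
      _ ≤ ∑ _σ : F →+* ℂ, (d : ℤ) := Finset.sum_le_sum fun σ _ => hb σ
      _ = ((Module.finrank ℚ F * d : ℕ) : ℤ) := by
        rw [Finset.sum_const, Finset.card_univ, hcard, nsmul_eq_mul]
        push_cast
        ring
  · have h1 : (((Z : ℝ) - ((∑ σ, N σ : ℤ) : ℝ) * u : ℝ) : ℂ) =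
        ∑ σ : F →+* ℂ, (σ (w : F) - (N σ : ℂ) * (u : ℂ)) := by
      rw [Finset.sum_sub_distrib, ← hZ, ← Finset.sum_mul]
      push_cast
      ring
    calc |(Z : ℝ) - ((∑ σ, N σ : ℤ) : ℝ) * u| = ‖(((Z : ℝ) - ((∑ σ, N σ : ℤ) : ℝ) * u : ℝ) : ℂ)‖ := by
          rw [Complex.norm_real, Real.norm_eq_abs]
      _ = ‖∑ σ : F →+* ℂ, (σ (w : F) - (N σ : ℂ) * (u : ℂ))‖ := by rw [h1]
      _ ≤ ∑ σ : F →+* ℂ, ‖σ (w : F) - (N σ : ℂ) * (u : ℂ)‖ := norm_sum_le _ _
      _ ≤ ∑ _σ : F →+* ℂ, η := Finset.sum_le_sum fun σ _ => hη σ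
      _ = Module.finrank ℚ F * η := by
        rw [Finset.sum_const, Finset.card_univ, hcard, nsmul_eq_mul]

/-- injectivity of the evaluation of the embeddings at a generator -/
theorem emb_inj {K : Type} [Field K] [NumberField K] (l : K)
    (σ σ' : (IntermediateField.adjoin ℚ {l}) →+* ℂ)
    (h : σ (IntermediateField.AdjoinSimple.gen ℚ l) =
      σ' (IntermediateField.AdjoinSimple.gen ℚ l)) : σ = σ' := by
  have h1 : σ.toRatAlgHom = σ'.toRatAlgHom := by
    apply IntermediateField.algHom_ext_of_eq_adjoin ℚ (S := IntermediateField.adjoin ℚ {l})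
      (s := {l}) rfl
    intro x hx
    rw [Set.mem_singleton_iff] at hx
    subst hx
    exact h
  ext a
  exact congrArg (fun f : (IntermediateField.adjoin ℚ {l}) →ₐ[ℚ] ℂ => f a) h1

/-- extension of embeddings -/
theorem ext_emb {K : Type} [Field K] [NumberField K] (E : IntermediateField ℚ K)
    (τ : E →+* ℂ) : ∃ σ : K →+* ℂ, ∀ a : E, σ (a : K) = τ a := by
  let _ : Algebra E ℂ := τ.toAlgebra
  have : Algebra.IsAlgebraic E K := Algebra.IsAlgebraic.tower_top (K := ℚ) E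
  let φ : K →ₐ[E] ℂ := IsAlgClosed.lift
  refine ⟨φ.toRingHom, fun a => ?_⟩
  have := φ.commutes a
  exact this

theorem quad : QUAD := by
  intro K _ _ d N hN w u η hη hr
  let E := IntermediateField.adjoin ℚ {(w : K)}
  have : NumberField E := inferInstance
  have hgen : IsIntegral ℤ (IntermediateField.AdjoinSimple.gen ℚ (w : K)) := by
    have h1 : IsIntegral ℤ ((algebraMap E K) (IntermediateField.AdjoinSimple.gen ℚ (w : K))) := by
      rw [IntermediateField.AdjoinSimple.algebraMap_gen]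
      exact w.isIntegral_coe
    exact (isIntegral_algebraMap_iff (algebraMap E K).injective).1 h1
  let w' : 𝓞 E := ⟨IntermediateField.AdjoinSimple.gen ℚ (w : K), hgen⟩
  have hw' : ((w' : E) : K) = (w : K) := IntermediateField.AdjoinSimple.coe_gen ℚ (w : K)
  choose ext hext using fun τ : E →+* ℂ => ext_emb E τ
  have hval : ∀ τ : E →+* ℂ, τ (w' : E) = (ext τ) (w : K) := by
    intro τ
    rw [← hw', hext]
  have hcard := card_emb E
  have hle : Fintype.card (E →+* ℂ) ≤ 2 := by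
    have hinj : Function.Injective (fun τ : E →+* ℂ => τ (w' : E)) := by
      intro τ τ' h
      exact emb_inj (w : K) τ τ' h
    have h1 : (Set.range fun τ : E →+* ℂ => τ (w' : E)).ncard = Fintype.card (E →+* ℂ) := by
      rw [← Nat.card_coe_set_eq, Nat.card_range_of_injective hinj, Nat.card_eq_fintype_card]
    rw [← h1]
    refine le_trans (Set.ncard_le_ncard ?_ (Set.finite_range _)) hr
    rintro _ ⟨τ, rfl⟩
    exact ⟨ext τ, (hval τ).symm⟩
  have hpos : 0 < Module.finrank ℚ E := Module.finrank_pos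
  have h4 : ¬ 4 ∣ Module.finrank ℚ E := by
    intro h
    have := Nat.le_of_dvd hpos h
    omega
  obtain ⟨Z, N0, h0, h1, h2⟩ := trc E h4 d (fun τ => N (ext τ))
    ⟨fun τ => hN.1 _, fun τ => hN.2.1 _, fun τ τ' => hN.2.2 _ _⟩ w' u η (by
      intro τ
      rw [hval]
      exact hη _)
  have hη0 : 0 ≤ η := by
    have hne : Nonempty (K →+* ℂ) := inferInstance
    obtain ⟨σ⟩ := hne
    exact (norm_nonneg _).trans (hη σ)
  rw [hcard] at hle
  refine ⟨Z, N0, h0, h1.trans ?_, h2.trans ?_⟩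
  · exact_mod_cast Nat.mul_le_mul_right d hle
  · apply mul_le_mul_of_nonneg_right _ hη0
    exact_mod_cast hle

end Pool.Agent.Y908.HY
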